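import Pool.Agent.Y142.ZD.Stm
import Pool.Agent.Y142.SS.Stm
import Pool.Agent.Y949.ZI.Char
import Pool.Agent.Y737.SS.Chara

/-!
# OI-CHARE (helper150 for helper282): the characteristic polynomial of an isometry near `1`
-/

set_option autoImplicit false

open Matrix Polynomial
open Pool.Agent.Y142.ZO

namespace Pool.Agent.Q150.OI.CHARE

/-- with the hypothesis `S_CHARA` -/
theorem t' (hCHARA : Pool.Agent.Y142.SS.S_CHARA) : Pool.Agent.Y142.ZD.S_CHARE := by
  intro ℓ _ N hN B T hB ε hε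
  obtain ⟨δ, k₀, hδ, h⟩ := hCHARA ℓ N hN T ε hε
  refine ⟨δ, k₀, hδ, fun k g hk hg hgT => ⟨h k g hk hgT, fun x hx => ?_⟩⟩
  have hdet : g.det ≠ 0 := by
    intro h0
    have h1 : gᵀ * B * g = B := hg
    have h2 := congrArg Matrix.det h1
    rw [det_mul, det_mul, h0, mul_zero] at h2
    exact hB h2.symm
  have hx0 : x ≠ 0 := by
    rintro rfl
    rw [← coeff_zero_eq_aeval_zero'] at hx
    have h2 : g.charpoly.coeff 0 = 0 := (_root_.map_eq_zero _).1 hx
    have h3 := Matrix.det_eq_sign_charpoly_coeff g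
    rw [h2, mul_zero] at h3
    exact hdet h3
  exact ⟨hx0, Pool.Agent.Y949.ZI.inv_root (algebraMap ℚ_[ℓ] (AlgebraicClosure ℚ_[ℓ])) hB hg x hx0 hx⟩

/-- without hypotheses -/
theorem t : Pool.Agent.Y142.ZD.S_CHARE := t' Pool.Agent.Y737.SS.Chara.t

end Pool.Agent.Q150.OI.CHARE
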