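import Pool.Agent.Y142.ZD.Stm
import Pool.Agent.Y929.ZS.Root

/-!
# OI-ROOTD (helper150 for helper282): the full orthogonal Lie algebra from one generic element
-/

set_option autoImplicit false
set_option linter.unusedSectionVars false

open Matrix Polynomial

namespace Pool.Agent.Q150.OI.ROOTD

section

variable {F ι : Type} [Field F] [CharZero F] [Fintype ι] [DecidableEq ι]

/-- the data in the eigenbasis -/
structure Dat (x : ι → F) (J : Matrix ι ι F) (s : ι → ι) (𝔤 : Submodule F (Matrix ι ι F)) :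
    Prop where
  x0 : ∀ a, x a ≠ 0
  xs : ∀ a, x a * x (s a) = 1
  ss : ∀ a, s (s a) = a
  sne : ∀ a, s a ≠ a
  Jz : ∀ a b, b ≠ s a → J a b = 0
  Jn : ∀ a, J a (s a) ≠ 0
  Js : ∀ a, J (s a) a = J a (s a)
  gen : ∀ a b d e, a ≠ b → x a * x e = x d * x b → (d = a ∧ e = b) ∨ (d = s b ∧ e = s a)
  sim : ∀ Z ∈ 𝔤, Zᵀ * J + J * Z = 0
  br : ∀ X ∈ 𝔤, ∀ Y ∈ 𝔤, X * Y - Y * X ∈ 𝔤
  ad : ∀ Z ∈ 𝔤, (Matrix.of fun a b => x a / x b * Z a b) ∈ 𝔤
  irr : ∀ W : Submodule F (ι → F), (∀ Z ∈ 𝔤, ∀ w ∈ W, Z *ᵥ w ∈ W) → W = ⊥ ∨ W = ⊤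

variable {x : ι → F} {J : Matrix ι ι F} {s : ι → ι} {𝔤 : Submodule F (Matrix ι ι F)}

/-- the root vectors -/
def EE (J : Matrix ι ι F) (s : ι → ι) (a b : ι) : Matrix ι ι F :=
  Matrix.of fun p q => (if p = a ∧ q = b then 1 else 0) -
    J a (s a) / J b (s b) * (if p = s b ∧ q = s a then 1 else 0)

theorem rel (h : Dat x J s 𝔤) {Z : Matrix ι ι F} (hZ : Zᵀ * J + J * Z = 0) (a b : ι) :
    J b (s b) * Z b a + J a (s a) * Z (s a) (s b) = 0 := by
  have h1 := congrFun (congrFun hZ a) (s b)
  simp only [Matrix.add_apply, Matrix.mul_apply, Matrix.transpose_apply, Matrix.zero_apply] at h1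
  rw [Finset.sum_eq_single b, Finset.sum_eq_single (s a)] at h1
  · rw [mul_comm (J b (s b)) (Z b a), h1]
  · intro k _ hk
    rw [h.Jz a k hk, zero_mul]
  · intro hk
    exact absurd (Finset.mem_univ _) hk
  · intro k _ hk
    have : s b ≠ s k := by
      intro h2
      apply hk
      rw [← h.ss k, ← h2, h.ss]
    rw [h.Jz k (s b) this, mul_zero]
  · intro hk
    exact absurd (Finset.mem_univ _) hk

/-- the entries at `(a, s a)` vanish -/
theorem rel0 (h : Dat x J s 𝔤) {Z : Matrix ι ι F} (hZ : Zᵀ * J + J * Z = 0) (a : ι) :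
    Z a (s a) = 0 := by
  have h1 := rel h hZ (s a) a
  rw [h.ss, h.Js] at h1
  have h2 : (2 : F) * J a (s a) * Z a (s a) = 0 := by linear_combination h1
  rcases mul_eq_zero.1 h2 with h3 | h3
  · exact absurd h3 (mul_ne_zero two_ne_zero (h.Jn a))
  · exact h3

/-- polynomials in the adjoint action -/
theorem ad_poly (h : Dat x J s 𝔤) {Z : Matrix ι ι F} (hZ : Z ∈ 𝔤) (p : Polynomial F) :
    (Matrix.of fun a b => p.eval (x a / x b) * Z a b) ∈ 𝔤 := by
  induction p using Polynomial.induction_on with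
  | C r =>
    have : (Matrix.of fun a b => (Polynomial.C r).eval (x a / x b) * Z a b) = r • Z := by
      ext a b
      simp
    rw [this]
    exact 𝔤.smul_mem _ hZ
  | add p q hp hq =>
    have : (Matrix.of fun a b => (p + q).eval (x a / x b) * Z a b) =
        (Matrix.of fun a b => p.eval (x a / x b) * Z a b) +
        (Matrix.of fun a b => q.eval (x a / x b) * Z a b) := by
      ext a b
      simp [add_mul]
    rw [this]
    exact 𝔤.add_mem hp hq
  | monomial n r hp =>
    have h1 := h.ad _ hp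
    have : (Matrix.of fun a b => (Polynomial.C r * Polynomial.X ^ (n + 1)).eval (x a / x b) * Z a b) =
        (Matrix.of fun a b => x a / x b * (Matrix.of fun a b =>
          (Polynomial.C r * Polynomial.X ^ n).eval (x a / x b) * Z a b) a b) := by
      ext a b
      simp only [Matrix.of_apply, Polynomial.eval_mul, Polynomial.eval_C, Polynomial.eval_pow,
        Polynomial.eval_X]
      ring
    rw [this]
    exact h1

/-- STEP 1 -/
theorem root_of (h : Dat x J s 𝔤) {Z : Matrix ι ι F} (hZ : Z ∈ 𝔤) {a b : ι} (hab : a ≠ b)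
    (hne : Z a b ≠ 0) : b ≠ s a ∧ EE J s a b ∈ 𝔤 := by
  classical
  have hb : b ≠ s a := by
    rintro rfl
    exact hne (rel0 h (h.sim Z hZ) a)
  refine ⟨hb, ?_⟩
  obtain ⟨p, hp1, hp2⟩ := Pool.Agent.Y929.ZS.sep (x a / x b)
    (Finset.univ.image fun q : ι × ι => x q.1 / x q.2)
  have h1 := ad_poly h hZ p
  have hjb := h.Jn b
  have hrel : Z (s b) (s a) = -(J a (s a) / J b (s b)) * Z a b := by
    have h2 := rel h (h.sim Z hZ) b a
    field_simp
    linear_combination h2
  have hq0 : x (s b) / x (s a) = x a / x b := by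
    rw [div_eq_div_iff (h.x0 _) (h.x0 _)]
    linear_combination h.xs b - h.xs a
  -- the entries
  have hent : ∀ d e, p.eval (x d / x e) * Z d e =
      if (d = a ∧ e = b) ∨ (d = s b ∧ e = s a) then Z d e else 0 := by
    intro d e
    by_cases hq : x d / x e = x a / x b
    · rw [hq, hp1, one_mul]
      rw [div_eq_div_iff (h.x0 e) (h.x0 b)] at hq
      rw [if_pos]
      exact h.gen a b d e hab hq.symm
    · rw [hp2 _ (Finset.mem_image.2 ⟨(d, e), Finset.mem_univ _, rfl⟩) hq, zero_mul, if_neg]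
      rintro (⟨rfl, rfl⟩ | ⟨rfl, rfl⟩)
      · exact hq rfl
      · exact hq hq0
  have h2 : EE J s a b = (Z a b)⁻¹ • (Matrix.of fun d e => p.eval (x d / x e) * Z d e) := by
    ext d e
    simp only [EE, Matrix.of_apply, Matrix.smul_apply, smul_eq_mul]
    rw [hent]
    by_cases hc : d = a ∧ e = b
    · have hc2 : ¬ (d = s b ∧ e = s a) := by
        rintro ⟨-, h4⟩
        exact hb (hc.2.symm.trans h4)
      rw [if_pos hc, if_neg hc2, if_pos (Or.inl hc), hc.1, hc.2]
      field_simp
      ring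
    · by_cases hc2 : d = s b ∧ e = s a
      · rw [if_neg hc, if_pos hc2, if_pos (Or.inr hc2), hc2.1, hc2.2, hrel]
        field_simp
        ring
      · rw [if_neg hc, if_neg hc2, if_neg (by tauto)]
        ring
  rw [h2]
  exact 𝔤.smul_mem _ h1

/-- the relation -/
def Rel (J : Matrix ι ι F) (s : ι → ι) (𝔤 : Submodule F (Matrix ι ι F)) (a b : ι) : Prop :=
  a ≠ b ∧ b ≠ s a ∧ EE J s a b ∈ 𝔤

/-- STEP 2 -/
theorem tr (h : Dat x J s 𝔤) {a b d : ι} (h1 : Rel J s 𝔤 a b) (h2 : Rel J s 𝔤 b d)
    (had : a ≠ d) (hds : d ≠ s a) : Rel J s 𝔤 a d := by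
  classical
  obtain ⟨hab, hbs, h1⟩ := h1
  obtain ⟨hbd, hds', h2⟩ := h2
  refine ⟨had, hds, (root_of h (h.br _ h1 _ h2) had ?_).2⟩
  rw [Matrix.sub_apply, Matrix.mul_apply, Matrix.mul_apply]
  have hasb : a ≠ s b := by
    intro h4
    apply hbs
    rw [h4, h.ss]
  have e1 : ∀ k, EE J s a b a k = if k = b then 1 else 0 := by
    intro k
    simp only [EE, Matrix.of_apply]
    simp [hasb]
  have e2 : EE J s b d b d = 1 := by
    simp only [EE, Matrix.of_apply]
    simp [hds']
  have e3 : ∀ k, EE J s b d a k = 0 := by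
    intro k
    simp only [EE, Matrix.of_apply]
    have hasd : a ≠ s d := by
      intro h4
      apply hds
      rw [h4, h.ss]
    simp [hab, hasd]
  simp only [e1, e3, zero_mul, Finset.sum_const_zero, sub_zero, ite_mul, one_mul]
  rw [Finset.sum_ite_eq' Finset.univ b (fun k => EE J s b d k d), if_pos (Finset.mem_univ _), e2]
  exact one_ne_zero

theorem symm_rel (h : Dat x J s 𝔤) {a b : ι} (h1 : Rel J s 𝔤 a b) : Rel J s 𝔤 (s b) (s a) := by
  obtain ⟨hab, hbs, h1⟩ := h1
  refine ⟨?_, ?_, ?_⟩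
  · intro h4
    apply hab
    rw [← h.ss a, ← h4, h.ss]
  · rw [h.ss]
    exact fun h4 => hbs h4.symm
  · have h2 : EE J s (s b) (s a) = (-(J b (s b) / J a (s a))) • EE J s a b := by
      ext p q
      simp only [EE, Matrix.of_apply, Matrix.smul_apply, smul_eq_mul]
      rw [h.ss, h.ss, h.Js, h.Js]
      have ha := h.Jn a
      have hb := h.Jn b
      field_simp
      ring
    rw [h2]
    exact 𝔤.smul_mem _ h1

/-- irreducibility: everything is reachable -/
theorem reach (h : Dat x J s 𝔤) (a b : ι) : Relation.ReflTransGen (Rel J s 𝔤) a b := by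
  classical
  let W : Submodule F (ι → F) :=
    { carrier := {w | ∀ d, w d ≠ 0 → Relation.ReflTransGen (Rel J s 𝔤) d b}
      add_mem' := by
        intro v w hv hw d hd
        by_cases h1 : v d = 0
        · refine hw d fun h2 => hd ?_
          rw [Pi.add_apply, h1, h2, add_zero]
        · exact hv d h1
      zero_mem' := fun d hd => absurd rfl hd
      smul_mem' := by
        intro r v hv d hd
        refine hv d fun h1 => hd ?_
        rw [Pi.smul_apply, h1, smul_zero] }
  have hW : ∀ w, w ∈ W ↔ ∀ d, w d ≠ 0 → Relation.ReflTransGen (Rel J s 𝔤) d b := fun w => Iff.rfl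
  have hst : ∀ Z ∈ 𝔤, ∀ w ∈ W, Z *ᵥ w ∈ W := by
    intro Z hZ w hw
    rw [hW] at hw ⊢
    intro d hd
    have h1 : (Z *ᵥ w) d = ∑ e, Z d e * w e := rfl
    rw [h1] at hd
    obtain ⟨e, -, he⟩ := Finset.exists_ne_zero_of_sum_ne_zero hd
    have hZe : Z d e ≠ 0 := left_ne_zero_of_mul he
    have hwe : w e ≠ 0 := right_ne_zero_of_mul he
    by_cases hde : d = e
    · rw [hde]
      exact hw e hwe
    · obtain ⟨h3, h4⟩ := root_of h hZ hde hZe
      exact Relation.ReflTransGen.head ⟨hde, h3, h4⟩ (hw e hwe)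
  rcases h.irr W hst with h1 | h1
  · have h2 : Pi.single b (1 : F) ∈ W := by
      rw [hW]
      intro d hd
      have : d = b := by
        by_contra hne
        exact hd (Pi.single_eq_of_ne hne 1)
      rw [this]
    rw [h1, Submodule.mem_bot] at h2
    have h3 := congrFun h2 b
    rw [Pi.single_eq_same] at h3
    exact absurd h3 one_ne_zero
  · have h2 : Pi.single a (1 : F) ∈ W := by
      rw [h1]
      exact Submodule.mem_top
    exact (hW _).1 h2 a (by rw [Pi.single_eq_same]; exact one_ne_zero)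

/-- closed sets -/
theorem closed_mem {R : ι → ι → Prop} {S : ι → Prop} (hS : ∀ d e, S d → R d e → S e) {a b : ι}
    (ha : S a) (h : Relation.ReflTransGen R a b) : S b := by
  induction h with
  | refl => exact ha
  | tail _ h1 h2 => exact hS _ _ h2 h1

theorem mid (h : Dat x J s 𝔤) (a : ι) : ∃ p, Rel J s 𝔤 a p ∧ Rel J s 𝔤 p (s a) := by
  by_contra hcon
  push Not at hcon
  have h1 := closed_mem (S := fun d => d = a ∨ Rel J s 𝔤 a d) ?_ (Or.inl rfl) (reach h a (s a))
  · rcases h1 with h1 | h1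
    · exact h.sne a h1
    · exact h1.2.1 rfl
  · rintro d e (rfl | hd) hde
    · exact Or.inr hde
    · by_cases he : e = a
      · exact Or.inl he
      · by_cases hes : e = s a
        · rw [hes] at hde
          exact absurd hde (hcon d hd)
        · exact Or.inr (tr h hd hde (Ne.symm he) hes)

/-- STEP 3 -/
theorem all_rel (h : Dat x J s 𝔤) (a b : ι) (hab : a ≠ b) (hbs : b ≠ s a) : Rel J s 𝔤 a b := by
  obtain ⟨p, hp1, hp2⟩ := mid h a
  have hp3 : Rel J s 𝔤 a (s p) := by
    have := symm_rel h hp2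
    rwa [h.ss] at this
  have h1 := closed_mem (S := fun d => d = a ∨ d = s a ∨ Rel J s 𝔤 a d) ?_ (Or.inl rfl)
    (reach h a b)
  · rcases h1 with h1 | h1 | h1
    · exact absurd h1.symm hab
    · exact absurd h1 hbs
    · exact h1
  · intro d e hd hde
    by_cases he : e = a
    · exact Or.inl he
    by_cases hes : e = s a
    · exact Or.inr (Or.inl hes)
    right; right
    rcases hd with rfl | rfl | hd
    · exact hde
    · by_cases hep : e = p
      · rw [hep]; exact hp1
      by_cases hesp : e = s p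
      · rw [hesp]; exact hp3
      exact tr h hp1 (tr h hp2 hde (Ne.symm hep) hesp) (Ne.symm he) hes
    · exact tr h hd hde (Ne.symm he) hes

theorem all_off (h : Dat x J s 𝔤) (a b : ι) (hab : a ≠ b) : EE J s a b ∈ 𝔤 := by
  by_cases hb : b = s a
  · have h1 : EE J s a b = 0 := by
      ext p q
      simp only [EE, Matrix.of_apply, Matrix.zero_apply]
      rw [hb, h.ss, h.Js, div_self (h.Jn a)]
      ring
    rw [h1]
    exact 𝔤.zero_mem
  · exact (all_rel h a b hab hb).2.2

theorem brack (h : Dat x J s 𝔤) (a b : ι) (hab : a ≠ b) (hbs : b ≠ s a) :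
    EE J s a b * EE J s b a - EE J s b a * EE J s a b = EE J s a a - EE J s b b := by
  have hja := h.Jn a
  have hjb := h.Jn b
  have hasb : a ≠ s b := by
    intro h4
    apply hbs
    rw [h4, h.ss]
  have hsab : s a ≠ s b := by
    intro h4
    apply hab
    rw [← h.ss a, h4, h.ss]
  have single : ∀ u v : ι, (Matrix.of fun p q => if p = u ∧ q = v then (1 : F) else 0) =
      Matrix.single u v (1 : F) := by
    intro u v
    ext p q
    simp only [Matrix.of_apply, Matrix.single_apply, eq_comm]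
  have hE : ∀ a b : ι, EE J s a b = Matrix.single a b (1 : F) -
      (J a (s a) / J b (s b)) • Matrix.single (s b) (s a) (1 : F) := by
    intro a b
    rw [← single, ← single]
    ext p q
    simp only [EE, Matrix.of_apply, Matrix.sub_apply, Matrix.smul_apply, smul_eq_mul]
  rw [hE, hE, hE, hE, div_self hja, div_self hjb]
  simp only [Matrix.sub_mul, Matrix.mul_sub, Matrix.smul_mul, Matrix.mul_smul,
    Matrix.single_mul_single_same, mul_one, one_smul]
  rw [Matrix.single_mul_single_of_ne (h := hbs), Matrix.single_mul_single_of_ne (h := hbs.symm),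
    Matrix.single_mul_single_of_ne (h := hasb), Matrix.single_mul_single_of_ne (h := hasb.symm)]
  simp only [smul_zero, sub_zero, zero_sub, smul_neg, smul_smul]
  have e1 : J a (s a) / J b (s b) * (J b (s b) / J a (s a)) = 1 := by field_simp
  have e2 : J b (s b) / J a (s a) * (J a (s a) / J b (s b)) = 1 := by field_simp
  rw [e1, e2]
  simp only [one_smul]
  abel

/-- STEP 4 -/
theorem all_diag (h : Dat x J s 𝔤) (a : ι) : EE J s a a ∈ 𝔤 := by
  obtain ⟨b, ⟨hab, hbs, -⟩, -⟩ := mid h a
  have hasb : a ≠ s b := by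
    intro h4
    apply hbs
    rw [h4, h.ss]
  have hsab : s b ≠ s a := by
    intro h4
    apply hab
    rw [← h.ss a, ← h4, h.ss]
  have h1 := h.br _ (all_off h a b hab) _ (all_off h b a hab.symm)
  have h2 := h.br _ (all_off h a (s b) hasb) _ (all_off h (s b) a hasb.symm)
  rw [brack h a b hab hbs] at h1
  rw [brack h a (s b) hasb hsab] at h2
  have h3 : EE J s (s b) (s b) = -EE J s b b := by
    ext p q
    simp only [EE, Matrix.of_apply, Matrix.neg_apply]
    rw [h.ss, h.Js, div_self (h.Jn b)]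
    ring
  rw [h3] at h2
  have h4 : EE J s a a = ((1 : F) / 2) • ((EE J s a a - EE J s b b) + (EE J s a a - -EE J s b b)) := by
    ext p q
    simp only [Matrix.smul_apply, Matrix.add_apply, Matrix.sub_apply, Matrix.neg_apply, smul_eq_mul]
    ring
  rw [h4]
  exact 𝔤.smul_mem _ (𝔤.add_mem h1 h2)

/-- the theorem in the eigenbasis -/
theorem diag (h : Dat x J s 𝔤) (X : Matrix ι ι F) (hX : Xᵀ * J + J * X = 0) : X ∈ 𝔤 := by
  classical
  have hrel : ∀ a b, X (s b) (s a) = -(J a (s a) / J b (s b)) * X a b := by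
    intro a b
    have h2 := rel h (Z := X) hX b a
    have hjb := h.Jn b
    field_simp
    linear_combination h2
  have h1 : X = ((1 : F) / 2) • ∑ a, ∑ b, X a b • EE J s a b := by
    ext d e
    rw [Matrix.smul_apply, Matrix.sum_apply]
    simp only [Matrix.sum_apply, Matrix.smul_apply, smul_eq_mul, EE, Matrix.of_apply]
    have g1 : ∀ a b, X a b * ((if d = a ∧ e = b then (1 : F) else 0) -
        J a (s a) / J b (s b) * (if d = s b ∧ e = s a then (1 : F) else 0)) =
        (if d = a then (if e = b then X d e else 0) else 0) +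
        (if s e = a then (if s d = b then X d e else 0) else 0) := by
      intro a b
      have g2 : (if d = a ∧ e = b then (1 : F) else 0) * X a b =
          (if d = a then (if e = b then X d e else 0) else 0) := by
        by_cases hd : d = a <;> by_cases he : e = b <;> simp [hd, he]
      have g3 : -(J a (s a) / J b (s b)) * X a b * (if d = s b ∧ e = s a then (1 : F) else 0) =
          (if s e = a then (if s d = b then X d e else 0) else 0) := by
        by_cases hd : s d = b
        · by_cases he : s e = a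
          · have hd' : d = s b := by rw [← hd, h.ss]
            have he' : e = s a := by rw [← he, h.ss]
            rw [if_pos ⟨hd', he'⟩, if_pos he, if_pos hd, mul_one, ← hrel, ← hd', ← he']
          · rw [if_neg (fun h' => he (by rw [h'.2, h.ss])), if_neg he, mul_zero]
        · rw [if_neg (fun h' => hd (by rw [h'.1, h.ss])), if_neg hd, ite_self, mul_zero]
      rw [← g2, ← g3]
      ring
    simp only [g1, Finset.sum_add_distrib]
    simp
    ring
  rw [h1]
  refine 𝔤.smul_mem _ (𝔤.sum_mem fun a _ => 𝔤.sum_mem fun b _ => 𝔤.smul_mem _ ?_)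
  by_cases hab : a = b
  · rw [hab]; exact all_diag h b
  · exact all_off h a b hab

end

theorem t : Pool.Agent.Y142.ZD.S_ROOTD := by
  classical
  intro F _ _ N J g 𝔤 hJ hJd hsim hs hsep hgen hone h𝔤 hbr had hirr X hX
  obtain ⟨x, P, hx, hP, hgP, hroot⟩ := Pool.Agent.Y929.ZS.exists_diag g hs hsep
  have hPd : IsUnit P.det := (Matrix.isUnit_iff_isUnit_det P).1 hP
  have hPi : P⁻¹ * P = 1 := Matrix.nonsing_inv_mul P hPd
  have hPi' : P * P⁻¹ = 1 := Matrix.mul_nonsing_inv P hPd
  obtain ⟨J', hJ'⟩ : ∃ J' : Matrix (Fin N) (Fin N) F, J' = Pᵀ * J * P := ⟨_, rfl⟩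
  have hgd : g = P * diagonal x * P⁻¹ := by
    rw [← hgP, mul_assoc, hPi', mul_one]
  have hsim' : gᵀ * J * g = J := hsim
  have hskew : ∀ Z, Pool.Agent.Y142.ZO.Skew J Z → Zᵀ * J + J * Z = 0 := by
    intro Z hZ
    have h1 : (J * Z)ᵀ = -(J * Z) := hZ
    rw [Matrix.transpose_mul, hJ] at h1
    rw [h1, neg_add_cancel]
  -- `g` is invertible
  have hdet : g.det ≠ 0 := by
    intro h0
    have h1 := congrArg Matrix.det hsim'
    rw [Matrix.det_mul, Matrix.det_mul, h0, mul_zero] at h1
    exact hJd h1.symm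
  have hx0 : ∀ a, x a ≠ 0 := by
    intro a ha
    apply hdet
    rw [hgd, Matrix.det_mul, Matrix.det_mul, Matrix.det_diagonal,
      Finset.prod_eq_zero (Finset.mem_univ a) ha, mul_zero, zero_mul]
  have hDJ : diagonal x * J' * diagonal x = J' := by
    have h1 : (P * diagonal x)ᵀ * J * (P * diagonal x) = J' := by
      rw [← hgP, Matrix.transpose_mul]
      calc Pᵀ * gᵀ * J * (g * P) = Pᵀ * (gᵀ * J * g) * P := by noncomm_ring
        _ = J' := by
          rw [hsim', hJ']
    calc diagonal x * J' * diagonal x = (P * diagonal x)ᵀ * J * (P * diagonal x) := by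
          rw [Matrix.transpose_mul, Matrix.diagonal_transpose, hJ']
          noncomm_ring
      _ = J' := h1
  have hent : ∀ a b, x a * x b * J' a b = 1 * J' a b := by
    intro a b
    have h1 := congrFun (congrFun hDJ a) b
    rw [Matrix.mul_diagonal, Matrix.diagonal_mul] at h1
    rw [one_mul]
    linear_combination h1
  have hJt : J'ᵀ = J' := by
    rw [hJ', Matrix.transpose_mul, Matrix.transpose_mul, Matrix.transpose_transpose, hJ]
    noncomm_ring
  have hJs : ∀ a b, J' b a = J' a b := by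
    intro a b
    have h1 := congrFun (congrFun hJt a) b
    rw [Matrix.transpose_apply] at h1
    exact h1
  have hJd' : J'.det ≠ 0 := by
    rw [hJ', Matrix.det_mul, Matrix.det_mul, Matrix.det_transpose]
    exact mul_ne_zero (mul_ne_zero hPd.ne_zero hJd) hPd.ne_zero
  have hex : ∀ a, ∃ b, J' a b ≠ 0 := by
    intro a
    by_contra hcon
    push Not at hcon
    exact hJd' (Matrix.det_eq_zero_of_row_eq_zero a hcon)
  choose s hsn using hex
  have hxs : ∀ a, x a * x (s a) = 1 := fun a => mul_right_cancel₀ (hsn a) (hent a (s a))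
  have huniq : ∀ a b, J' a b ≠ 0 → b = s a := by
    intro a b hb
    have h1 := mul_right_cancel₀ hb (hent a b)
    apply hx
    exact mul_left_cancel₀ (hx0 a) (h1.trans (hxs a).symm)
  have hss : ∀ a, s (s a) = a := by
    intro a
    refine (huniq (s a) a ?_).symm
    rw [hJs a (s a)]
    exact hsn a
  have hsne : ∀ a, s a ≠ a := by
    intro a ha
    have h1 := hxs a
    rw [ha] at h1
    refine hone (x a) ?_ h1
    have h2 := hroot a
    rwa [Polynomial.coe_aeval_eq_eval] at h2
  -- the conjugated Lie algebra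
  let φ : Matrix (Fin N) (Fin N) F →ₗ[F] Matrix (Fin N) (Fin N) F :=
    { toFun := fun Z => P * Z * P⁻¹
      map_add' := fun Z W => by rw [mul_add, add_mul]
      map_smul' := fun r Z => by simp }
  have hφ : ∀ Z, φ Z = P * Z * P⁻¹ := fun Z => rfl
  let 𝔥 : Submodule F (Matrix (Fin N) (Fin N) F) := 𝔤.comap φ
  have h𝔥 : ∀ Z, Z ∈ 𝔥 ↔ P * Z * P⁻¹ ∈ 𝔤 := fun Z => Iff.rfl
  have hback : ∀ Z, P * (P⁻¹ * Z * P) * P⁻¹ = Z := by
    intro Z
    calc P * (P⁻¹ * Z * P) * P⁻¹ = (P * P⁻¹) * Z * (P * P⁻¹) := by noncomm_ring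
      _ = Z := by rw [hPi', one_mul, mul_one]
  have hconv : ∀ (Z : Matrix (Fin N) (Fin N) F), (P * Z * P⁻¹)ᵀ * J + J * (P * Z * P⁻¹) = 0 →
      Zᵀ * J' + J' * Z = 0 := by
    intro Z h1
    have h2 : (P * Z * P⁻¹)ᵀ = P⁻¹ᵀ * Zᵀ * Pᵀ := by
      rw [Matrix.transpose_mul, Matrix.transpose_mul, mul_assoc]
    have h3 : Pᵀ * P⁻¹ᵀ = 1 := by rw [← Matrix.transpose_mul, hPi, Matrix.transpose_one]
    calc Zᵀ * J' + J' * Z = (Pᵀ * P⁻¹ᵀ) * Zᵀ * (Pᵀ * J * P) + (Pᵀ * J * P) * Z * (P⁻¹ * P) := by
          rw [h3, hPi, one_mul, mul_one, hJ']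
      _ = Pᵀ * ((P⁻¹ᵀ * Zᵀ * Pᵀ) * J + J * (P * Z * P⁻¹)) * P := by noncomm_ring
      _ = 0 := by rw [← h2, h1, Matrix.mul_zero, Matrix.zero_mul]
  have dat : Dat x J' s 𝔥 := by
    refine ⟨hx0, hxs, hss, hsne, ?_, hsn, ?_, ?_, ?_, ?_, ?_, ?_⟩
    · intro a b hb
      by_contra hne
      exact hb (huniq a b hne)
    · intro a
      exact hJs a (s a)
    · intro a b d e hab heq
      have hmap : ∀ a, aeval (algebraMap F (AlgebraicClosure F) (x a)) g.charpoly = 0 := by
        intro a
        rw [Polynomial.aeval_algebraMap_apply, hroot a, map_zero]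
      have hinj := (algebraMap F (AlgebraicClosure F)).injective
      have h1 := hgen _ _ _ _ (hmap a) (hmap b) (hmap d) (hmap e)
        (fun h' => hab (hx (hinj h'))) (by rw [← map_mul, ← map_mul, heq])
      rcases h1 with ⟨h2, h3⟩ | ⟨h2, h3⟩
      · exact Or.inl ⟨hx (hinj h2), hx (hinj h3)⟩
      · right
        rw [← map_mul] at h2 h3
        have h2' := hinj h2
        have h3' := hinj h3
        refine ⟨hx ?_, hx ?_⟩
        · refine mul_right_cancel₀ (hx0 b) ?_
          rw [h2', mul_comm, hxs]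
        · refine mul_right_cancel₀ (hx0 a) ?_
          rw [h3', mul_comm, hxs]
    · intro Z hZ
      exact hconv Z (hskew _ (h𝔤 _ ((h𝔥 Z).1 hZ)))
    · intro Z hZ W hW
      rw [h𝔥] at hZ hW ⊢
      have h1 := hbr _ hZ _ hW
      have h2 : P * (Z * W - W * Z) * P⁻¹ = P * Z * P⁻¹ * (P * W * P⁻¹) - P * W * P⁻¹ * (P * Z * P⁻¹) := by
        calc P * (Z * W - W * Z) * P⁻¹ = P * Z * 1 * W * P⁻¹ - P * W * 1 * Z * P⁻¹ := by noncomm_ring
          _ = _ := by
            rw [← hPi]
            noncomm_ring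
      rw [h2]
      exact h1
    · intro Z hZ
      rw [h𝔥] at hZ ⊢
      have h1 := had _ hZ
      have h2 : (Matrix.of fun a b => x a / x b * Z a b) = diagonal x * Z * diagonal (fun a => (x a)⁻¹) := by
        ext a b
        rw [Matrix.mul_diagonal, Matrix.diagonal_mul, Matrix.of_apply]
        ring
      have h3 : g⁻¹ = P * diagonal (fun a => (x a)⁻¹) * P⁻¹ := by
        refine Matrix.inv_eq_right_inv ?_
        have h4 : diagonal x * diagonal (fun a => (x a)⁻¹) = 1 := by
          rw [Matrix.diagonal_mul_diagonal, ← Matrix.diagonal_one]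
          congr 1
          ext a
          exact mul_inv_cancel₀ (hx0 a)
        calc g * (P * diagonal (fun a => (x a)⁻¹) * P⁻¹) =
            P * diagonal x * (P⁻¹ * P) * diagonal (fun a => (x a)⁻¹) * P⁻¹ := by
              rw [hgd]
              noncomm_ring
          _ = P * (diagonal x * diagonal (fun a => (x a)⁻¹)) * P⁻¹ := by
            rw [hPi]
            noncomm_ring
          _ = 1 := by rw [h4, mul_one, hPi']
      have h5 : P * (Matrix.of fun a b => x a / x b * Z a b) * P⁻¹ = g * (P * Z * P⁻¹) * g⁻¹ := by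
        rw [h2, h3]
        calc P * (diagonal x * Z * diagonal fun a => (x a)⁻¹) * P⁻¹ =
            (P * diagonal x) * 1 * Z * 1 * (diagonal fun a => (x a)⁻¹) * P⁻¹ := by noncomm_ring
          _ = (P * diagonal x) * (P⁻¹ * P) * Z * (P⁻¹ * P) * (diagonal fun a => (x a)⁻¹) * P⁻¹ := by
            rw [hPi]
          _ = (P * diagonal x * P⁻¹) * (P * Z * P⁻¹) * (P * (diagonal fun a => (x a)⁻¹) * P⁻¹) := by
            noncomm_ring
          _ = _ := by rw [← hgd]
      rw [h5]
      exact h1
    · intro W hW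
      have hinj : Function.Injective (Matrix.toLin' P) := by
        intro v w hvw
        rw [Matrix.toLin'_apply, Matrix.toLin'_apply] at hvw
        have h1 := congrArg (fun u => P⁻¹ *ᵥ u) hvw
        simp only [Matrix.mulVec_mulVec, hPi, Matrix.one_mulVec] at h1
        exact h1
      have hstab : ∀ Z ∈ 𝔤, ∀ w ∈ W.map (Matrix.toLin' P), Z *ᵥ w ∈ W.map (Matrix.toLin' P) := by
        rintro Z hZ _ ⟨w, hw, rfl⟩
        have h1 : P⁻¹ * Z * P ∈ 𝔥 := by
          rw [h𝔥, hback]
          exact hZ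
        refine ⟨(P⁻¹ * Z * P) *ᵥ w, hW _ h1 w hw, ?_⟩
        rw [Matrix.toLin'_apply, Matrix.toLin'_apply, Matrix.mulVec_mulVec, Matrix.mulVec_mulVec]
        congr 1
        calc P * (P⁻¹ * Z * P) = (P * P⁻¹) * Z * P := by noncomm_ring
          _ = Z * P := by rw [hPi', one_mul]
      rcases hirr _ hstab with h1 | h1
      · left
        rw [eq_bot_iff]
        intro w hw
        have h2 : Matrix.toLin' P w ∈ W.map (Matrix.toLin' P) := ⟨w, hw, rfl⟩
        rw [h1, Submodule.mem_bot, ← map_zero (Matrix.toLin' P)] at h2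
        exact (Submodule.mem_bot F).2 (hinj h2)
      · right
        rw [eq_top_iff]
        intro w _
        have h2 : Matrix.toLin' P w ∈ W.map (Matrix.toLin' P) := by rw [h1]; exact Submodule.mem_top
        obtain ⟨w', hw', h3⟩ := h2
        rw [← hinj h3]
        exact hw'
  -- conclusion
  have h1 := diag dat (P⁻¹ * X * P) (hconv (P⁻¹ * X * P) (by
      rw [hback]
      exact hskew X hX))
  rw [h𝔥, hback] at h1
  exact h1

end Pool.Agent.Q150.OI.ROOTD
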